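import Pool.Agent.Helper14.AY.GoalsB

/-!
# AY CUT: products with a cut-off function
-/

open Complex Metric Set Filter Topology MeasureTheory
open scoped ContDiff ComplexConjugate ComplexOrder Manifold Matrix

namespace Pool.Agent.Helper16.AY

open Pool.Agent.Helper95.Lin Pool.Agent.Helper16.Abund Pool.Agent.Helper92.Orb Pool.Agent.Helper10.SP
  Pool.Agent.Helper95.RK Pool.Agent.Helper57.HS Pool.Agent.Helper14.AY

section calculus

variable {n : ℕ} {E F G : Type*} [NormedAddCommGroup E] [NormedSpace ℝ E] [NormedAddCommGroup F]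
  [NormedSpace ℝ F] [NormedAddCommGroup G] [NormedSpace ℝ G] {a : ℝ} {S : Set (Cn n)}

theorem cb_mono {K K' : ℝ} {f : Cn n → E} (h : K ≤ K') (hf : CB a S K f) : CB a S K' f := by
  refine ⟨fun x hx => (hf.1 x hx).trans h, fun x hx y hy => (hf.2 x hx y hy).trans ?_⟩
  exact mul_le_mul_of_nonneg_right h (Real.rpow_nonneg (norm_nonneg _) _)

theorem cb_add {K₁ K₂ : ℝ} {f g : Cn n → E} (hf : CB a S K₁ f) (hg : CB a S K₂ g) :
    CB a S (K₁ + K₂) fun x => f x + g x := by
  refine ⟨fun x hx => (norm_add_le _ _).trans (add_le_add (hf.1 x hx) (hg.1 x hx)),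
    fun x hx y hy => ?_⟩
  have e : f x + g x - (f y + g y) = (f x - f y) + (g x - g y) := by abel
  rw [e, add_mul]
  exact (norm_add_le _ _).trans (add_le_add (hf.2 x hx y hy) (hg.2 x hx y hy))

theorem cb_lin (L : E → F) {C : ℝ} (hC : 0 ≤ C) (hL : ∀ u, ‖L u‖ ≤ C * ‖u‖)
    (hs : ∀ u v, L u - L v = L (u - v)) {K : ℝ} {f : Cn n → E} (hf : CB a S K f) :
    CB a S (C * K) fun x => L (f x) := by
  refine ⟨fun x hx => (hL _).trans (mul_le_mul_of_nonneg_left (hf.1 x hx) hC),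
    fun x hx y hy => ?_⟩
  simp only
  rw [hs]
  refine (hL _).trans ?_
  rw [mul_assoc]
  exact mul_le_mul_of_nonneg_left (hf.2 x hx y hy) hC

theorem cb_op (op : E → F → G) (hop : ∀ u w, ‖op u w‖ ≤ ‖u‖ * ‖w‖)
    (hs : ∀ u u' w w', op u w - op u' w' = op (u - u') w + op u' (w - w')) {K₁ K₂ : ℝ}
    {f : Cn n → E} {g : Cn n → F} (h1 : 0 ≤ K₁) (h2 : 0 ≤ K₂) (hf : CB a S K₁ f)
    (hg : CB a S K₂ g) : CB a S (2 * (K₁ * K₂)) fun x => op (f x) (g x) := by
  have hb : ∀ (u : E) (w : F) (A B : ℝ), 0 ≤ A → ‖u‖ ≤ A → ‖w‖ ≤ B → ‖op u w‖ ≤ A * B := by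
    intro u w A B hA hu hw
    refine (hop u w).trans ?_
    have := norm_nonneg w
    gcongr
  have h0 : 0 ≤ K₁ * K₂ := by positivity
  refine ⟨fun x hx => (hb _ _ _ _ h1 (hf.1 x hx) (hg.1 x hx)).trans (by linarith),
    fun x hx y hy => ?_⟩
  have hp : 0 ≤ ‖x - y‖ ^ a := Real.rpow_nonneg (norm_nonneg _) _
  simp only
  rw [hs]
  have i1 := hb _ _ _ _ (mul_nonneg h1 hp) (hf.2 x hx y hy) (hg.1 x hx)
  have i2 := hb _ _ _ _ h1 (hf.1 y hy) (hg.2 x hx y hy)
  refine (norm_add_le _ _).trans ?_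
  calc _ ≤ (K₁ * ‖x - y‖ ^ a) * K₂ + K₁ * (K₂ * ‖x - y‖ ^ a) := add_le_add i1 i2
    _ = 2 * (K₁ * K₂) * ‖x - y‖ ^ a := by ring

theorem cb_smul {K₁ K₂ : ℝ} {c : Cn n → ℝ} {g : Cn n → F} (h1 : 0 ≤ K₁) (h2 : 0 ≤ K₂)
    (hf : CB a S K₁ c) (hg : CB a S K₂ g) : CB a S (2 * (K₁ * K₂)) fun x => c x • g x := by
  refine cb_op (fun (u : ℝ) (w : F) => u • w) (fun u w => norm_smul_le u w) ?_ h1 h2 hf hg
  intro u u' w w'
  rw [sub_smul, smul_sub]
  abel

theorem cb_mulc {K₁ K₂ : ℝ} {c : Cn n → ℂ} {g : Cn n → ℂ} (h1 : 0 ≤ K₁) (h2 : 0 ≤ K₂)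
    (hf : CB a S K₁ c) (hg : CB a S K₂ g) : CB a S (2 * (K₁ * K₂)) fun x => c x * g x := by
  refine cb_op (fun u w => u * w) (fun u w => norm_mul_le u w) ?_ h1 h2 hf hg
  intro u u' w w'
  ring

theorem cb_smulRight {K₁ K₂ : ℝ} {f : Cn n → (E →L[ℝ] ℝ)} {g : Cn n → F} (h1 : 0 ≤ K₁)
    (h2 : 0 ≤ K₂) (hf : CB a S K₁ f) (hg : CB a S K₂ g) :
    CB a S (2 * (K₁ * K₂)) fun x => (f x).smulRight (g x) := by
  refine cb_op (fun (u : E →L[ℝ] ℝ) (w : F) => u.smulRight w) ?_ ?_ h1 h2 hf hg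
  · intro u w
    exact (ContinuousLinearMap.norm_smulRight_apply u w).le
  · intro u u' w w'
    ext z
    simp only [sub_apply, add_apply, ContinuousLinearMap.smulRight_apply]
    rw [sub_smul, smul_sub]
    abel

theorem cb_sum {ι : Type*} (s : Finset ι) {K : ι → ℝ} {f : ι → Cn n → E}
    (hf : ∀ i ∈ s, CB a S (K i) (f i)) : CB a S (∑ i ∈ s, K i) fun x => ∑ i ∈ s, f i x := by
  classical
  induction s using Finset.induction_on with
  | empty =>
    refine ⟨fun x _ => by simp, fun x _ y _ => by simp⟩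
  | insert i s hi ih =>
    have h1 := cb_add (hf i (Finset.mem_insert_self _ _))
      (ih fun j hj => hf j (Finset.mem_insert_of_mem hj))
    rw [Finset.sum_insert hi]
    have e : (fun x => ∑ j ∈ insert i s, f j x) = fun x => f i x + ∑ j ∈ s, f j x := by
      funext x
      rw [Finset.sum_insert hi]
    rw [e]
    exact h1

theorem cb_congr {K : ℝ} {f g : Cn n → E} (h : ∀ x ∈ S, f x = g x) (hf : CB a S K f) :
    CB a S K g := by
  refine ⟨fun x hx => h x hx ▸ hf.1 x hx, fun x hx y hy => ?_⟩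
  rw [← h x hx, ← h y hy]
  exact hf.2 x hx y hy

/-- `C¹` functions are bounded and Hölder on balls. -/
theorem cb_c1 (ha1 : a ≤ 1) (x₀ : Cn n) {r : ℝ} (hr : 0 < r) {g : Cn n → E}
    (hg : ContDiff ℝ 1 g) : ∃ K : ℝ, 0 ≤ K ∧ CB a (ball x₀ r) K g := by
  have hcomp : IsCompact (closedBall x₀ r) := isCompact_closedBall _ _
  obtain ⟨M, hM⟩ := hcomp.exists_bound_of_continuousOn hg.continuous.continuousOn
  obtain ⟨M', hM'⟩ := hcomp.exists_bound_of_continuousOn
    (hg.continuous_fderiv (by norm_num)).continuousOn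
  have hx₀ : x₀ ∈ closedBall x₀ r := mem_closedBall_self hr.le
  have hM0 : 0 ≤ M := (norm_nonneg _).trans (hM x₀ hx₀)
  have hM0' : 0 ≤ M' := (norm_nonneg _).trans (hM' x₀ hx₀)
  have hp : 0 ≤ (2 * r) ^ (1 - a) := Real.rpow_nonneg (by linarith) _
  refine ⟨M + M' * (2 * r) ^ (1 - a), by positivity, ?_, ?_⟩
  · intro x hx
    have := hM x (ball_subset_closedBall hx)
    have h2 : 0 ≤ M' * (2 * r) ^ (1 - a) := by positivity
    linarith
  · intro x hx y hy
    have h1 : ‖g x - g y‖ ≤ M' * ‖x - y‖ :=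
      (convex_ball x₀ r).norm_image_sub_le_of_norm_fderiv_le (𝕜 := ℝ)
        (fun z _ => hg.differentiable (by norm_num) z)
        (fun z hz => hM' z (ball_subset_closedBall hz)) hy hx
    have hxy : ‖x - y‖ ≤ 2 * r := by
      have h2 := mem_ball_iff_norm.1 hx
      have h3 := mem_ball_iff_norm.1 hy
      have e : x - y = (x - x₀) - (y - x₀) := by abel
      rw [e]
      exact (norm_sub_le _ _).trans (by linarith)
    rcases eq_or_ne x y with rfl | hne
    · simp only [sub_self, norm_zero]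
      positivity
    · have hpos : 0 < ‖x - y‖ := norm_pos_iff.2 (sub_ne_zero.2 hne)
      have h4 : ‖x - y‖ = ‖x - y‖ ^ (1 - a) * ‖x - y‖ ^ a := by
        rw [← Real.rpow_add hpos, sub_add_cancel, Real.rpow_one]
      have h5 : ‖x - y‖ ^ (1 - a) ≤ (2 * r) ^ (1 - a) :=
        Real.rpow_le_rpow hpos.le hxy (by linarith)
      have h6 : 0 ≤ ‖x - y‖ ^ a := Real.rpow_nonneg hpos.le _
      calc ‖g x - g y‖ ≤ M' * ‖x - y‖ := h1
        _ = M' * (‖x - y‖ ^ (1 - a) * ‖x - y‖ ^ a) := by rw [← h4]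
        _ ≤ M' * ((2 * r) ^ (1 - a) * ‖x - y‖ ^ a) := by gcongr
        _ = (M' * (2 * r) ^ (1 - a)) * ‖x - y‖ ^ a := by ring
        _ ≤ (M + M' * (2 * r) ^ (1 - a)) * ‖x - y‖ ^ a :=
            mul_le_mul_of_nonneg_right (by linarith) h6

/-- Extension of a Hölder condition. -/
theorem hb_glob {K : ℝ} (hK : 0 ≤ K) (ha : 0 < a) {C : Set (Cn n)} (hS : IsOpen S)
    (hC : IsClosed C) (hCS : C ⊆ S) {f : Cn n → E} (h0 : ∀ x, x ∉ C → f x = 0)
    (hf : HB a S K f) : HB a univ K f := by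
  have key : ∀ x ∈ S, ∀ y ∉ S, ‖f x - f y‖ ≤ K * ‖x - y‖ ^ a := by
    intro x hx y hy
    have hfy : f y = 0 := h0 y fun h => hy (hCS h)
    by_cases hxC : x ∈ C
    · obtain ⟨z, hz, hzS, hzC⟩ : ∃ z ∈ segment ℝ x y, z ∈ S ∧ z ∉ C := by
        by_contra hcon
        push Not at hcon
        have hsub : segment ℝ x y ⊆ C ∪ Sᶜ := by
          intro z hz
          by_cases hzS : z ∈ S
          · exact Or.inl (hcon z hz hzS)
          · exact Or.inr hzS
        have hconn : IsPreconnected (segment ℝ x y) := (convex_segment x y).isPreconnected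
        obtain ⟨z, -, hz1, hz2⟩ := isPreconnected_closed_iff.1 hconn C Sᶜ hC hS.isClosed_compl hsub
          ⟨x, left_mem_segment ℝ x y, hxC⟩ ⟨y, right_mem_segment ℝ x y, hy⟩
        exact hz2 (hCS hz1)
      have h1 := hf x hx z hzS
      rw [h0 z hzC] at h1
      rw [hfy]
      refine h1.trans (mul_le_mul_of_nonneg_left ?_ hK)
      refine Real.rpow_le_rpow (norm_nonneg _) ?_ ha.le
      obtain ⟨s, t, hs, ht, hst, rfl⟩ := hz
      have e : x - (s • x + t • y) = t • (x - y) := by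
        have hs' : s = 1 - t := by linarith
        rw [hs', smul_sub, sub_smul, one_smul]
        abel
      rw [e, norm_smul, Real.norm_eq_abs, abs_of_nonneg ht]
      have : t ≤ 1 := by linarith
      nlinarith [norm_nonneg (x - y)]
    · rw [h0 x hxC, hfy, sub_zero, norm_zero]
      exact mul_nonneg hK (Real.rpow_nonneg (norm_nonneg _) _)
  intro x _ y _
  by_cases hx : x ∈ S
  · by_cases hy : y ∈ S
    · exact hf x hx y hy
    · exact key x hx y hy
  · by_cases hy : y ∈ S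
    · have := key y hy x hx
      rw [← norm_neg, neg_sub, ← norm_neg (x - y), neg_sub]
      exact this
    · rw [h0 x fun h => hx (hCS h), h0 y fun h => hy (hCS h), sub_zero, norm_zero]
      exact mul_nonneg hK (Real.rpow_nonneg (norm_nonneg _) _)

end calculus

/-- The entries of the Levi matrix as linear functions of the second derivative. -/
noncomputable def lmE {n : ℕ} (j k : Fin n) (B : Cn n →L[ℝ] Cn n →L[ℝ] ℝ) : ℂ :=
    ((B (Pi.single j 1) (Pi.single k 1) + B (Pi.single j I) (Pi.single k I) : ℝ) : ℂ) +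
    I * ((B (Pi.single j 1) (Pi.single k I) - B (Pi.single j I) (Pi.single k 1) : ℝ) : ℂ)

theorem lmE_sub {n : ℕ} (j k : Fin n) (B B' : Cn n →L[ℝ] Cn n →L[ℝ] ℝ) :
    lmE j k B - lmE j k B' = lmE j k (B - B') := by
  unfold lmE
  simp only [sub_apply]
  push_cast
  ring

theorem lmE_add {n : ℕ} (j k : Fin n) (B B' : Cn n →L[ℝ] Cn n →L[ℝ] ℝ) :
    lmE j k (B + B') = lmE j k B + lmE j k B' := by
  unfold lmE
  simp only [add_apply]
  push_cast
  ring

theorem lmE_smul {n : ℕ} (j k : Fin n) (c : ℝ) (B : Cn n →L[ℝ] Cn n →L[ℝ] ℝ) :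
    lmE j k (c • B) = (c : ℂ) * lmE j k B := by
  unfold lmE
  simp only [smul_apply, smul_eq_mul]
  push_cast
  ring

theorem norm_single {n : ℕ} (j : Fin n) (c : ℂ) : ‖(Pi.single j c : Cn n)‖ ≤ ‖c‖ := by
  rw [pi_norm_le_iff_of_nonneg (norm_nonneg _)]
  intro i
  by_cases h : i = j
  · subst h
    rw [Pi.single_eq_same]
  · rw [Pi.single_eq_of_ne h, norm_zero]
    exact norm_nonneg _

theorem lmE_norm {n : ℕ} (j k : Fin n) (B : Cn n →L[ℝ] Cn n →L[ℝ] ℝ) :
    ‖lmE j k B‖ ≤ 4 * ‖B‖ := by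
  have h : ∀ (i l : Fin n) (c d : ℂ), ‖c‖ ≤ 1 → ‖d‖ ≤ 1 →
      |B (Pi.single i c) (Pi.single l d)| ≤ ‖B‖ := by
    intro i l c d hc hd
    have h1 := B.le_opNorm₂ (Pi.single i c) (Pi.single l d)
    rw [Real.norm_eq_abs] at h1
    have h2 := (norm_single i c).trans hc
    have h3 := (norm_single l d).trans hd
    have h4 := norm_nonneg (Pi.single l d : Cn n)
    have h5 := norm_nonneg B
    calc |B (Pi.single i c) (Pi.single l d)| ≤
        ‖B‖ * ‖(Pi.single i c : Cn n)‖ * ‖(Pi.single l d : Cn n)‖ := h1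
      _ ≤ ‖B‖ * 1 * 1 := by gcongr
      _ = ‖B‖ := by ring
  have h1 := h j k 1 1 (by simp) (by simp)
  have h2 := h j k I I (by simp) (by simp)
  have h3 := h j k 1 I (by simp) (by simp)
  have h4 := h j k I 1 (by simp) (by simp)
  unfold lmE
  refine (norm_add_le _ _).trans ?_
  rw [norm_mul, Complex.norm_I, one_mul, Complex.norm_real, Complex.norm_real, Real.norm_eq_abs,
    Real.norm_eq_abs]
  have h5 := abs_add_le (B (Pi.single j 1) (Pi.single k 1)) (B (Pi.single j I) (Pi.single k I))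
  have h6 := abs_sub (B (Pi.single j 1) (Pi.single k I)) (B (Pi.single j I) (Pi.single k 1))
  linarith

/-- The second derivative of a product. -/
theorem D2_mul {n : ℕ} {η v : Cn n → ℝ} {x : Cn n} (hη : ContDiff ℝ ∞ η)
    (hv : ContDiffAt ℝ 2 v x) :
    D2 (fun y => η y * v y) x = η x • D2 v x + ((fderiv ℝ η x).smulRight (fderiv ℝ v x) +
      (v x • D2 η x + (fderiv ℝ v x).smulRight (fderiv ℝ η x))) := by
  have hev : fderiv ℝ (fun y => η y * v y) =ᶠ[𝓝 x]
      fun y => η y • fderiv ℝ v y + v y • fderiv ℝ η y := by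
    have h1 : ∀ᶠ y in 𝓝 x, ContDiffAt ℝ 2 v y := hv.eventually (by decide)
    filter_upwards [h1] with y hy
    exact fderiv_fun_mul (hη.contDiffAt.differentiableAt (by simp)) (hy.differentiableAt (by simp))
  have h2 : DifferentiableAt ℝ (fderiv ℝ v) x :=
    (hv.fderiv_right (m := 1) (by norm_num)).differentiableAt (by norm_num)
  have hη2 : ContDiff ℝ 2 η := by exact_mod_cast contDiff_infty.1 hη 2
  have h3 : DifferentiableAt ℝ (fderiv ℝ η) x :=
    (hη2.fderiv_right (m := 1) (by norm_num)).contDiffAt.differentiableAt (by norm_num)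
  have h4 : DifferentiableAt ℝ η x := hη.contDiffAt.differentiableAt (by simp)
  have h5 : DifferentiableAt ℝ v x := hv.differentiableAt (by simp)
  unfold D2
  have h6 : DifferentiableAt ℝ (fun y => η y • fderiv ℝ v y) x := h4.smul h2
  have h7 : DifferentiableAt ℝ (fun y => v y • fderiv ℝ η y) x := h5.smul h3
  rw [hev.fderiv_eq, fderiv_fun_add h6 h7, fderiv_fun_smul h4 h2, fderiv_fun_smul h5 h3]
  abel

theorem cut (hLMD : S_LMD) : S_CUT := by
  intro n a r x₀ η ha ha1 hr hη hsupp K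
  have hηs := hη.1
  have hη3 : ContDiff ℝ 3 η := by exact_mod_cast contDiff_infty.1 hηs 3
  have hη4 : ContDiff ℝ 2 (fderiv ℝ η) := hη3.fderiv_right (m := 2) (by norm_num)
  have hη5 : ContDiff ℝ 1 (D2 η) := hη4.fderiv_right (m := 1) (by norm_num)
  obtain ⟨k0, hk0, c0⟩ := cb_c1 ha1 x₀ hr (hη3.of_le (by norm_num) : ContDiff ℝ 1 η)
  obtain ⟨k1, hk1, c1⟩ := cb_c1 ha1 x₀ hr (hη4.of_le (by norm_num) : ContDiff ℝ 1 (fderiv ℝ η))
  obtain ⟨k2, hk2, c2⟩ := cb_c1 ha1 x₀ hr hη5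
  -- the lower order part
  set KR : ℝ := 2 * (k1 * K) + (2 * (K * k2) + 2 * (K * k1)) with hKR
  set KG : ℝ := 2 * ((1 * k0) * K) +
    ∑ j : Fin n, ∑ k : Fin n, 2 * (K * (4 * KR)) with hKG
  refine ⟨KG, ?_⟩
  intro v F A hv cv cdv cF cA htr
  have hx₀ : x₀ ∈ ball x₀ r := mem_ball_self hr
  have hK : 0 ≤ K := (norm_nonneg _).trans (cv.1 x₀ hx₀)
  have hKR0 : 0 ≤ KR := by positivity
  have hKG0 : 0 ≤ KG := by
    have h1 : 0 ≤ ∑ j : Fin n, ∑ k : Fin n, 2 * (K * (4 * KR)) :=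
      Finset.sum_nonneg fun j _ => Finset.sum_nonneg fun k _ => by positivity
    have h2 : 0 ≤ 2 * ((1 * k0) * K) := by positivity
    linarith
  have hvat : ∀ x ∈ ball x₀ r, ContDiffAt ℝ 2 v x := fun x hx =>
    hv.contDiffAt (isOpen_ball.mem_nhds hx)
  -- the product vanishes outside the support
  have hzero : ∀ x, x ∉ tsupport η → (fun y => η y * v y) =ᶠ[𝓝 x] fun _ => 0 := by
    intro x hx
    have h1 : η =ᶠ[𝓝 x] 0 := notMem_tsupport_iff_eventuallyEq.1 hx
    filter_upwards [h1] with y hy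
    rw [hy, Pi.zero_apply, zero_mul]
  have hη2 : ContDiff ℝ 2 η := hη3.of_le (by norm_num)
  have hCD : ContDiff ℝ 2 (fun x => η x * v x) := by
    rw [contDiff_iff_contDiffAt]
    intro x
    by_cases hx : x ∈ ball x₀ r
    · exact hη2.contDiffAt.mul (hvat x hx)
    · exact contDiffAt_const.congr_of_eventuallyEq (hzero x fun h => hx (hsupp h))
  -- the lower order part of the second derivative
  set Rf : Cn n → (Cn n →L[ℝ] Cn n →L[ℝ] ℝ) := fun x =>
    (fderiv ℝ η x).smulRight (fderiv ℝ v x) +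
      (v x • D2 η x + (fderiv ℝ v x).smulRight (fderiv ℝ η x)) with hRf
  have hD2 : ∀ x ∈ ball x₀ r, D2 (fun y => η y * v y) x = η x • D2 v x + Rf x := fun x hx =>
    D2_mul hηs (hvat x hx)
  have cR : CB a (ball x₀ r) KR Rf := by
    refine cb_add ?_ (cb_add ?_ ?_)
    · exact cb_smulRight hk1 hK c1 cdv
    · exact cb_smul hK hk2 cv c2
    · exact cb_smulRight hK hk1 cdv c1
  have hLMat : ∀ (w : Cn n → ℝ) (x : Cn n), ContDiffAt ℝ 2 w x → ∀ j k,
      LM w x j k = lmE j k (D2 w x) := by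
    intro w x hw j k
    rw [(hLMD w x hw).2.1 j k]
    rfl
  refine ⟨hCD, ?_, ?_⟩
  · -- the trace
    have hG : ∀ x ∈ ball x₀ r, ((η x : ℝ) : ℂ) * F x +
        ∑ j, ∑ k, A x j k * lmE k j (Rf x) =
        Matrix.trace (A x * LM (fun y => η y * v y) x) := by
      intro x hx
      have e1 : Matrix.trace (A x * LM (fun y => η y * v y) x) =
          ∑ j, ∑ k, A x j k * (((η x : ℝ) : ℂ) * LM v x k j + lmE k j (Rf x)) := by
        simp only [Matrix.trace, Matrix.diag_apply, Matrix.mul_apply]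
        refine Finset.sum_congr rfl fun j _ => Finset.sum_congr rfl fun k _ => ?_
        rw [hLMat _ x hCD.contDiffAt k j, hD2 x hx, lmE_add, lmE_smul, hLMat _ x (hvat x hx) k j]
      have e2 : F x = ∑ j, ∑ k, A x j k * LM v x k j := by
        rw [← htr x hx]
        simp only [Matrix.trace, Matrix.diag_apply, Matrix.mul_apply]
      rw [e1, e2]
      simp only [Finset.mul_sum]
      rw [← Finset.sum_add_distrib]
      refine Finset.sum_congr rfl fun j _ => ?_
      rw [← Finset.sum_add_distrib]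
      refine Finset.sum_congr rfl fun k _ => ?_
      ring
    have cG : CB a (ball x₀ r) KG (fun x => Matrix.trace (A x * LM (fun y => η y * v y) x)) := by
      refine cb_congr hG (cb_add ?_ (cb_sum _ fun j _ => cb_sum _ fun k _ => ?_))
      · exact cb_mulc (by positivity) hK (cb_lin (fun t : ℝ => (t : ℂ)) zero_le_one
          (fun u => by rw [one_mul, Complex.norm_real]) (fun u v => by push_cast; ring) c0) cF
      · exact cb_mulc hK (by positivity) (cA j k)
          (cb_lin (lmE k j) (by norm_num) (lmE_norm k j) (lmE_sub k j) cR)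
    refine hb_glob hKG0 ha isOpen_ball (isClosed_tsupport η) hsupp ?_ cG.2
    intro x hx
    have h1 : LM (fun y => η y * v y) x = 0 := by
      ext j k
      rw [hLMat _ x hCD.contDiffAt j k]
      have h2 : D2 (fun y => η y * v y) x = 0 := by
        unfold D2
        have h3 := (hzero x hx).fderiv (𝕜 := ℝ)
        rw [h3.fderiv_eq]
        simp
      rw [h2, Matrix.zero_apply]
      simp [lmE]
    rw [h1, Matrix.mul_zero, Matrix.trace_zero]
  · intro K₁ hK₁ hK₂
    obtain ⟨K₂, hK₂⟩ := hK₂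
    have hm : CB a (ball x₀ r) (max K₁ K₂) (D2 v) := by
      refine ⟨fun x hx => (hK₂ x hx).trans (le_max_right _ _), fun x hx y hy => ?_⟩
      refine (hK₁ x hx y hy).trans (mul_le_mul_of_nonneg_right (le_max_left _ _) ?_)
      exact Real.rpow_nonneg (norm_nonneg _) _
    have hm0 : 0 ≤ max K₁ K₂ := by
      have h1 := hm.1 x₀ hx₀
      exact (norm_nonneg (D2 v x₀)).trans h1
    have cD : CB a (ball x₀ r) (2 * (k0 * max K₁ K₂) + KR)
        (D2 fun y => η y * v y) := by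
      refine cb_congr (fun x hx => (hD2 x hx).symm) (cb_add ?_ cR)
      exact cb_smul hk0 hm0 c0 hm
    refine ⟨2 * (k0 * max K₁ K₂) + KR, ?_⟩
    refine hb_glob (by positivity) ha isOpen_ball (isClosed_tsupport η) hsupp ?_ cD.2
    intro x hx
    unfold D2
    have h3 := (hzero x hx).fderiv (𝕜 := ℝ)
    rw [h3.fderiv_eq]
    simp

end Pool.Agent.Helper16.AY
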